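import Pool.Agent.H75.QG.Targets
import Pool.Agent.H70.QA.FLA

/-!
# General gates: the first-large argument for alive paths
-/

namespace Pool.Agent.H92.QG

open Finset Pool.Agent.H68.AC Pool.Agent.H75.QA Pool.Agent.H75.QG Pool.Agent.H70.QA Pool.Agent.H70.AC

theorem mem_chtG {V : Type} [DecidableEq V] [Fintype V] {s d M : ℕ} (C : CktG V s d M)
    (P : Finset V) (R : Fin d → PA V) (g : Fin s) (c : Bool × DT V) (hc : c ∈ C.cht P R g) :
    ∃ a ∈ C.ch g, (a.1, C.stree P R a.2) = c := by
  unfold CktG.cht at hc
  exact List.mem_map.1 hc

theorem nx_some {V : Type} [DecidableEq V] {M : ℕ} {cs : List (Bool × DT V)} {κ : PA V}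
    {τ : List (V × Bool)} (h : nx M cs κ = some τ) : (scan cs κ).2 = some τ := by
  unfold nx at h
  split_ifs at h
  exact h

/-- Module FLAG. -/
theorem flag_t (hEXT : T_EXTG) (hLOCW : T_LOCWG) (hCANP : T_CANPG) (hBPS : T_BPSG) (hBPN : T_BPNG)
    (hSCS : T_SCS) (hTEQ : T_TEQG) : T_FLAG := by
  intro k r s d M A _ _ C w e x S y β h hE h1 hShal hG
  have key : ∀ n g, C.lev g = n → ∀ ψ c, IsPath (C.T (K e x univ) (Rof S y) g) ψ c →
      Alive (K e x univ) S y (C.lev g) ψ → (VS e (HH e x ψ)).card ≤ β := by
    intro n
    induction n using Nat.strong_induction_on with
    | _ n ih =>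
      intro g hg ψ c hψ hal
      rw [hTEQ] at hψ
      obtain ⟨π, hπ, hbp, _⟩ := hCANP _ _ _ _ _ _ _ _ _ (nfree_le _) hψ
      have main : ∀ π, IsBPG M (C.cht (K e x univ) (Rof S y) g)
          (rho (K e x univ) (Rof S y) (C.lev g + 1)) π →
          Alive (K e x univ) S y (C.lev g) π.flatten → (VS e (HH e x π.flatten)).card ≤ β := by
        intro π
        induction π using List.reverseRecOn with
        | nil =>
          intro _ _
          rw [List.flatten_nil, HH_nil]
          simp [VS]
        | append_singleton π α ihπ =>
          intro hb hbal
          have hfl : (π ++ [α]).flatten = π.flatten ++ α := by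
            rw [List.flatten_append]; simp
          obtain ⟨hb1, τ, hτ, hα⟩ := (hBPS _ _ _ _ _ _).1 hb
          have hπal : Alive (K e x univ) S y (C.lev g) π.flatten := by
            intro c hc hcP
            exact hbal c (by rw [hfl]; exact List.mem_append_left _ hc) hcP
          have hs1 : (HH e x π.flatten).card ≤ h := expd_small hE _ (ihπ hb1 hπal)
          have hs2 : (HH e x τ).card ≤ h := by
            obtain ⟨_, hAg, _, c, hc, hp⟩ := hSCS _ _ _ τ (nx_some hτ)
            obtain ⟨⟨b, a⟩, ha, rfl⟩ := mem_chtG C _ (Rof S y) g c hc
            rcases a with i | g'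
            · rcases inp_path i τ _ hp with rfl | ⟨a, rfl⟩
              · rw [HH_nil]; simp
              · exact (HH_single e x a).trans h1
            · have hl := C.acyc g b g' ha
              have hld := C.lev_lt g
              refine expd_small hE _ (ih (C.lev g') (by omega) g' rfl τ _ hp ?_)
              intro u hu huP
              have hmask : rho (K e x univ) (Rof S y) (C.lev g + 1) u.1 =
                  fd (Rof S y) (C.lev g + 1) u.1 := by
                simp only [rho, mask, if_neg huP]
              cases hk0 : rho (K e x univ) (Rof S y) (C.lev g + 1) u.1 with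
              | some b0 =>
                left
                have hb0 : b0 = y u.1 := fd_Rof_some S y _ _ _ (hmask ▸ hk0)
                have hnq : u.1 ∉ π.flatten.map Prod.fst := by
                  intro hm
                  obtain ⟨c', hc', hcu⟩ := List.mem_map.1 hm
                  have := (hBPN _ _ _ _ _ hb1).2.1 c' hc'
                  rw [hcu, hk0] at this
                  simp at this
                have hk : updL (rho (K e x univ) (Rof S y) (C.lev g + 1)) π.flatten u.1 =
                    some b0 := by
                  rw [updL_not_mem _ _ _ hnq, hk0]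
                rw [← hb0]
                exact hAg u hu b0 hk
              | none =>
                right
                refine ⟨by omega, ?_⟩
                exact fd_Rof_none S y (C.lev g + 1) u.1 (hmask ▸ hk0) _ (by simp only; omega)
          have hs3 : (HH e x α).card ≤ h := by
            refine (Finset.card_le_card (HH_mono e x α τ ?_)).trans hs2
            intro v hv
            rw [hα, mem_fr] at hv
            exact hv.1
          by_contra hcon
          push Not at hcon
          have hcard : (HH e x (π ++ [α]).flatten).card ≤ 2 * h := by
            rw [hfl, HH_append]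
            refine (Finset.card_union_le _ _).trans ?_
            omega
          have hAB : K e x (HH e x (π ++ [α]).flatten) ⊆ K e x univ :=
            Finset.image_subset_image (Finset.subset_univ _)
          have hav : Avoid {v | v ∈ K e x univ ∧ v ∉ K e x (HH e x (π ++ [α]).flatten)}
              (π ++ [α]).flatten := by
            intro c hc hcm
            obtain ⟨hc1, hc2⟩ := hcm
            simp only [K, mem_image, mem_univ, true_and] at hc1
            obtain ⟨j, hj⟩ := hc1
            apply hc2
            rw [K, mem_image]
            refine ⟨j, ?_, hj⟩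
            rw [mem_HH, hj]
            exact List.mem_map_of_mem hc
          have hbA := (hLOCW _ _ _ _ C _ _ (Rof S y) g hAB).2 _ hb hav
          obtain ⟨ψ', c', hp', hψ'⟩ := hEXT _ M (C.op g) (C.df g) _ _ _ _ y (nfree_le _) hbA
          rw [← hTEQ] at hp'
          refine hG _ hcon hcard g ⟨hShal _ g, _, c', hp', ?_, ?_⟩
          · intro u hu huA
            rcases List.mem_append.1 hu with hu | hu
            · refine hbal u hu ?_
              intro huP
              exact hav u hu ⟨huP, huA⟩
            · exact Or.inl (hψ' u hu)
          · intro v hv
            rw [K, mem_image] at hv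
            obtain ⟨j, hj, rfl⟩ := hv
            rw [mem_HH] at hj
            rw [List.map_append]
            exact List.mem_append_left _ hj
      rw [← hπ]
      exact main π hbp (by rw [hπ]; exact hal)
  intro g ψ c hψ hal
  exact key _ g rfl ψ c hψ hal

end Pool.Agent.H92.QG
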